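import Pool.Agent.Helper53.KU.Contact
import Pool.Agent.Helper23.KU.ZDefs

/-!
# The direction of the variation (piece C)
-/

set_option autoImplicit false

open Filter Topology Metric Set Polynomial

namespace Pool.Agent.Helper53.KR

open Pool.Agent.Helper23.KU (rv)

theorem rv_add (n : ℕ) (a b : ℂ[X]) : rv n (a + b) = rv n a + rv n b := by
  unfold rv
  rw [Polynomial.map_add, reflect_add]

theorem rv_C_mul (n : ℕ) (r : ℂ) (a : ℂ[X]) : rv n (C r * a) = C ((starRingEnd ℂ) r) * rv n a := by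
  unfold rv
  rw [Polynomial.map_mul, map_C, reflect_C_mul]

theorem rv_zero (n : ℕ) : rv n 0 = 0 := by
  unfold rv
  rw [Polynomial.map_zero, reflect_zero]

theorem rv_sum {ι : Type} (s : Finset ι) (n : ℕ) (r : ι → ℂ) (a : ι → ℂ[X]) :
    rv n (∑ i ∈ s, C (r i) * a i) = ∑ i ∈ s, C ((starRingEnd ℂ) (r i)) * rv n (a i) := by
  classical
  induction s using Finset.induction_on with
  | empty => simp [rv_zero]
  | insert i s hi ih => rw [Finset.sum_insert hi, Finset.sum_insert hi, rv_add, rv_C_mul, ih]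

theorem eval_sum {ι : Type} (s : Finset ι) (r : ι → ℂ) (a : ι → ℂ[X]) (z : ℂ) :
    (∑ i ∈ s, C (r i) * a i).eval z = ∑ i ∈ s, r i * (a i).eval z := by
  rw [eval_finsetSum]
  simp only [eval_mul, eval_C]

/-- Taylor polynomials -/
theorem taylor {F : ℂ → ℂ} (hF : DifferentiableOn ℂ F (ball 0 1)) (n : ℕ) :
    ∃ (q : ℂ[X]) (y : ℂ → ℂ), q.natDegree ≤ n ∧ DifferentiableOn ℂ y (ball 0 1) ∧
      ∀ z ∈ ball (0 : ℂ) 1, z ^ n * y z = F z - q.eval z := by
  induction n with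
  | zero => exact ⟨0, F, by simp, hF, fun z _ => by simp⟩
  | succ n ih =>
    obtain ⟨q, y, hq, hy, h⟩ := ih
    refine ⟨q + C (y 0) * X ^ n, dslope y 0, ?_, ?_, ?_⟩
    · refine (natDegree_add_le _ _).trans (max_le (hq.trans (Nat.le_succ n)) ?_)
      exact (natDegree_C_mul_X_pow_le _ _).trans (Nat.le_succ n)
    · exact (Complex.differentiableOn_dslope (isOpen_ball.mem_nhds
        (mem_ball_self one_pos))).2 hy
    · intro z hz
      have h1 := sub_smul_dslope y 0 z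
      rw [sub_zero, smul_eq_mul] at h1
      have h2 := h z hz
      simp only [eval_add, eval_mul, eval_C, eval_pow, eval_X]
      calc z ^ (n + 1) * dslope y 0 z = z ^ n * (z * dslope y 0 z) := by ring
        _ = z ^ n * (y z - y 0) := by rw [h1]
        _ = z ^ n * y z - y 0 * z ^ n := by ring
        _ = F z - (q.eval z + y 0 * z ^ n) := by rw [h2]; ring

end Pool.Agent.Helper53.KR

namespace Pool.Agent.Helper23.KU

open Pool.Agent.Helper53.KR Pool.Agent.Helper53.KU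

/-- Piece C. -/
theorem var_exists {c : ℝ} (h0 : 0 < c) (h1 : c < 1) {k : ℂ → ℂ}
    (hk : AnalyticOnNhd ℂ k (sphere (0 : ℂ) c)) (hne : ∃ z ∈ sphere (0 : ℂ) c, k z ≠ 0)
    {I : ℂ → ℂ} (hI : DifferentiableOn ℂ I (ball 0 1)) :
    ∃ (n : ℕ) (p q : ℂ[X]) (y : ℂ → ℂ) (C : ℝ), p ≠ 0 ∧ p.natDegree ≤ n ∧ q.natDegree ≤ n ∧
      DifferentiableOn ℂ y (ball 0 1) ∧
      (∀ z ∈ ball (0 : ℂ) 1, z ^ n * y z = p.eval z * I z - q.eval z) ∧
      (∀ z : ℂ, ‖z‖ = c → ‖y z‖ ≤ C * ‖k z‖) ∧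
      (∀ z : ℂ, ‖z‖ = c → ‖(rv n p).eval z - (rv n q).eval z * I z‖ ≤ C * ‖k z‖) := by
  obtain ⟨J, hJ, ζ, e, hζ, hcore⟩ := contact_core hk hne
  obtain ⟨n, hn⟩ : ∃ n, n = Fintype.card (J ⊕ J) := ⟨_, rfl⟩
  have hmem : ∀ z : ℂ, z ∈ sphere (0 : ℂ) c ↔ ‖z‖ = c := by
    intro z
    simp
  have hsub : ∀ z ∈ sphere (0 : ℂ) c, z ∈ ball (0 : ℂ) 1 := by
    intro z hz
    rw [mem_ball_zero_iff, (hmem z).1 hz]
    exact h1
  have han : ∀ F : ℂ → ℂ, DifferentiableOn ℂ F (ball 0 1) →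
      AnalyticOnNhd ℂ F (sphere (0 : ℂ) c) := fun F hF z hz =>
    hF.analyticAt (isOpen_ball.mem_nhds (hsub z hz))
  -- the basic directions
  have hT : ∀ i : Fin (n + 1), ∃ (q : ℂ[X]) (y : ℂ → ℂ), q.natDegree ≤ n ∧
      DifferentiableOn ℂ y (ball 0 1) ∧
      ∀ z ∈ ball (0 : ℂ) 1, z ^ n * y z = z ^ (i : ℕ) * I z - q.eval z := fun i =>
    taylor ((differentiableOn_id.pow (i : ℕ)).mul hI) n
  choose Q Y hQ hY hQY using hT
  obtain ⟨U, hU⟩ : ∃ U : Fin (n + 1) → ℂ → ℂ, U =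
    fun (i : Fin (n + 1)) (z : ℂ) => (rv n (X ^ (i : ℕ))).eval z - (rv n (Q i)).eval z * I z := ⟨_, rfl⟩
  have hUd : ∀ i, DifferentiableOn ℂ (U i) (ball 0 1) := by
    intro i
    rw [hU]
    exact (Polynomial.differentiable _).differentiableOn.sub
      ((Polynomial.differentiable _).differentiableOn.mul hI)
  obtain ⟨x, hx0, hx⟩ := solve_complex (J := J ⊕ J) n (le_of_eq hn.symm)
    (fun j i => Sum.elim (fun j => iteratedDeriv (e j) (Y i) (ζ j))
      (fun j => (starRingEnd ℂ) (iteratedDeriv (e j) (U i) (ζ j))) j)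
  have hyan : ∀ i, AnalyticOnNhd ℂ (Y i) (sphere (0 : ℂ) c) := fun i => han _ (hY i)
  have huan : ∀ i, AnalyticOnNhd ℂ (U i) (sphere (0 : ℂ) c) := fun i => han _ (hUd i)
  obtain ⟨C1, hC1, hy1⟩ := hcore (fun z => ∑ i, x i * Y i z)
    (fun z hz => analytic_comb (fun i => hyan i z hz) x) (fun j => by
      rw [deriv_comb (fun i => hyan i (ζ j) (hζ j)) (e j) x]
      exact hx (Sum.inl j))
  obtain ⟨C2, hC2, hu1⟩ := hcore (fun z => ∑ i, (starRingEnd ℂ) (x i) * U i z)
    (fun z hz => analytic_comb (fun i => huan i z hz) (fun i => (starRingEnd ℂ) (x i)))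
    (fun j => by
      rw [deriv_comb (fun i => huan i (ζ j) (hζ j)) (e j) (fun i => (starRingEnd ℂ) (x i))]
      have h2 := congrArg (starRingEnd ℂ) (hx (Sum.inr j))
      rw [map_sum, map_zero] at h2
      rw [← h2]
      refine Finset.sum_congr rfl (fun i _ => ?_)
      rw [map_mul]
      simp only [Sum.elim_inr, Complex.conj_conj])
  refine ⟨n, ∑ i, Polynomial.C (x i) * X ^ (i : ℕ), ∑ i, Polynomial.C (x i) * Q i,
    fun z => ∑ i, x i * Y i z, max C1 C2, ?_, ?_, ?_, ?_, ?_, ?_, ?_⟩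
  · intro hp
    apply hx0
    ext i
    have h2 := congrArg (fun P : ℂ[X] => P.coeff (i : ℕ)) hp
    simp only [finsetSum_coeff, coeff_C_mul, coeff_X_pow, coeff_zero] at h2
    rw [Finset.sum_eq_single i] at h2
    · simpa using h2
    · intro b _ hb
      have h3 : ¬ (i : ℕ) = (b : ℕ) := fun h => hb (Fin.ext h.symm)
      rw [if_neg h3, mul_zero]
    · intro h
      exact absurd (Finset.mem_univ i) h
  · refine natDegree_sum_le_of_forall_le _ _ (fun i _ => ?_)
    exact (natDegree_C_mul_X_pow_le _ _).trans (Nat.lt_succ_iff.1 i.2)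
  · refine natDegree_sum_le_of_forall_le _ _ (fun i _ => ?_)
    exact (natDegree_C_mul_le _ _).trans (hQ i)
  · exact DifferentiableOn.fun_sum (fun i _ => (hY i).const_mul (x i))
  · intro z hz
    simp only
    rw [Helper53.KR.eval_sum, Helper53.KR.eval_sum, Finset.mul_sum, Finset.sum_mul,
      ← Finset.sum_sub_distrib]
    refine Finset.sum_congr rfl (fun i _ => ?_)
    rw [eval_pow, eval_X]
    have h2 := hQY i z hz
    calc z ^ n * (x i * Y i z) = x i * (z ^ n * Y i z) := by ring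
      _ = x i * (z ^ (i : ℕ) * I z - (Q i).eval z) := by rw [h2]
      _ = x i * z ^ (i : ℕ) * I z - x i * (Q i).eval z := by ring
  · intro z hz
    exact (hy1 z ((hmem z).2 hz)).trans
      (mul_le_mul_of_nonneg_right (le_max_left _ _) (norm_nonneg _))
  · intro z hz
    have h2 : (rv n (∑ i, Polynomial.C (x i) * X ^ (i : ℕ))).eval z -
        (rv n (∑ i, Polynomial.C (x i) * Q i)).eval z * I z =
        ∑ i, (starRingEnd ℂ) (x i) * U i z := by
      rw [rv_sum, rv_sum, Helper53.KR.eval_sum, Helper53.KR.eval_sum, Finset.sum_mul,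
        ← Finset.sum_sub_distrib]
      refine Finset.sum_congr rfl (fun i _ => ?_)
      rw [hU]
      ring
    rw [h2]
    exact (hu1 z ((hmem z).2 hz)).trans
      (mul_le_mul_of_nonneg_right (le_max_right _ _) (norm_nonneg _))

end Pool.Agent.Helper23.KU
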